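import Mathlib
import Pool.Agent.H96.BB.Fin3

/-!
# MP_46005c_pr: the boundary measure of hyperbolic branching Brownian motion at `β = 1/2`
-/

namespace Pool.Agent.Results.MP_46005c_pr.SingularAtHalf

open MeasureTheory ProbabilityTheory Filter Topology Pool.Agent.H96.BB
open scoped ENNReal NNReal

/-- Hyperbolic branching Brownian motion with branching rate `1/2`: almost surely the limit
`μ_∞` of the normalised empirical measures is mutually singular with arc length on the unit
circle; in particular it is not absolutely continuous. -/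
theorem result {E : Type*} [MeasurableSpace E] (Q : Measure E) [IsProbabilityMeasure Q]
    (B : ℝ≥0 → E → ℂ) (hB : IsHypBM Q B)
    (μinf : Smp E → Measure ℂ) (hmeas : Measurable μinf)
    (hlim : ∀ᵐ ω ∂(law Q), IsProbabilityMeasure (μinf ω) ∧
      μinf ω (Metric.sphere 0 1)ᶜ = 0 ∧ WeakLim (emp B ω) (μinf ω)) :
    ∀ᵐ ω ∂(law Q), μinf ω ⟂ₘ arc ∧ ¬ μinf ω ≪ arc := by
  filter_upwards [singular Q B hB μinf hmeas hlim, hlim] with ω h1 h2
  refine ⟨h1, fun hac => ?_⟩
  have := h2.1
  have h3 : μinf ω = 0 := Measure.eq_zero_of_absolutelyContinuous_of_mutuallySingular hac h1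
  exact IsProbabilityMeasure.ne_zero (μinf ω) h3

end Pool.Agent.Results.MP_46005c_pr.SingularAtHalf
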